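import Pool.Agent.Helper23_Refl.Ns.F

/-!
# The anisotropic reflective lattices of signature (3,1)

The answer to the question: a lattice of signature (3,1) not representing zero is reflective
if and only if it is similar to one of the 919 lattices of the table `reflList`. These 919
lattices are reflective and pairwise not similar: there are exactly 919 classes of similarity.
-/

namespace Pool.Agent.Results.MP_c70e36_gt.AnisotropicReflective

open Pool.Agent.Refl

theorem result :
    (∀ G : M4, Lat G → (Reflective G ↔ ∃ T ∈ reflList, Pool.Agent.Refl.Similar G T)) ∧
    (∀ T ∈ reflList, Lat T ∧ Reflective T) ∧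
    reflList.Pairwise (fun S T => ¬ Pool.Agent.Refl.Similar S T) ∧
    reflList.length = 919 :=
  ⟨Fin.main_list, Fin.main_mem, Ns.nosim, Fin.main_len⟩

end Pool.Agent.Results.MP_c70e36_gt.AnisotropicReflective
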